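import Pool.Agent.K3h75.NW.Stm
import Pool.Agent.K3h3.ND.Lmn

/-! # Coverings with nodal reductions: local modules at nodal primes

Weighted version of `K3h3/ND/Lmn.lean`. -/

set_option autoImplicit false

open scoped Pointwise

namespace Pool.Agent.K3h13.NW

open MvPolynomial Pool.Agent.H918R2.Quad Pool.Agent.H945R2.E Pool.Agent.TH214.RM
open Pool.Agent.K3h75.ND Pool.Agent.K3h75.NW Pool.Agent.R187.WC

section aux

variable {R F ι : Type} [CommRing R] [Field F] [Algebra R F]

/-- The values of the weighted forms of weight `N e`. -/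
theorem aeval_memW [Fintype ι] (e : ℕ) (he : 1 ≤ e) (v : Option ι → F)
    (P : MvPolynomial (Option ι) R) (N : ℕ) (hP : P.IsWeightedHomogeneous (wt e) (N * e)) :
    aeval v P ∈ Submodule.span R (Set.range (zz e v) ^ N) := by
  classical
  rw [aeval_def, eval₂_eq']
  refine Submodule.sum_mem _ fun s hs => ?_
  rw [← Algebra.smul_def]
  refine Submodule.smul_mem _ _ (Submodule.subset_span ?_)
  have h1 : s none * e + ∑ j, s (some j) = N * e := by
    rw [← weight_eq]
    by_contra hne
    exact (mem_support_iff.1 hs) (hP.coeff_eq_zero s hne)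
  have h2 : s none ≤ N := by
    have h3 : s none * e ≤ N * e := by omega
    exact Nat.le_of_mul_le_mul_right h3 (by omega)
  obtain ⟨c, hc⟩ : ∃ c, N = s none + c := ⟨N - s none, by omega⟩
  have h4 : ∑ j, s (some j) = e * c := by
    have h5 : N * e = s none * e + e * c := by rw [hc]; ring
    omega
  rw [Fintype.prod_option, hc, pow_add]
  refine Set.mul_mem_mul (Set.pow_mem_pow ⟨.inr (), rfl⟩) (sub_zz e c v ?_)
  have h6 := prod_mem_range_pow (fun j => v (some j)) (fun j => s (some j)) Finset.univ
  rw [h4] at h6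
  exact h6

/-- The product of the generating sets is in the span of the monomials. -/
theorem prod_memW [Fintype ι] (π : R) (v : Option ι → F) (P : MvPolynomial (Option ι) R)
    (m e E r : ℕ) (hm : 1 ≤ m) (he : 1 ≤ e) (hP : P.IsWeightedHomogeneous (wt e) (m * e)) (D : ℕ)
    (hD : D = E + r * m) :
    ∀ y ∈ ∏ k, PsiW π v P m e E r k, y ∈ Submodule.span R (Set.range (zz e v) ^ D) := by
  intro y hy
  obtain ⟨g, hg, rfl⟩ := (Set.mem_fintype_prod _ _).1 hy
  rw [← Submodule.span_pow]
  have hme : 1 ≤ m * e := Nat.mul_pos hm he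
  have h1 : ∀ k ∈ (Finset.univ : Finset (Option (Fin r))), g k ∈
      (fun i : ℕ => Submodule.span R (Set.range (zz e v)) ^ i)
        (Option.elim k E fun _ => m) := by
    intro k _
    cases k with
    | none =>
      change g none ∈ Submodule.span R (Set.range (zz e v)) ^ E
      rw [Submodule.span_pow]
      exact Submodule.subset_span (hg none)
    | some j =>
      change g (some j) ∈ Submodule.span R (Set.range (zz e v)) ^ m
      rw [Submodule.span_pow]
      rcases hg (some j) with (⟨i, k, hi⟩ | ⟨φ, hi⟩) | ⟨z, hz, hi⟩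
      · rw [hi]
        have h2 : v (some k) * aeval v (pderiv (some i) P) =
            aeval v (X (some k) * pderiv (some i) P) := by rw [map_mul, aeval_X]
        rw [h2]
        refine aeval_memW e he v _ m ?_
        have h3 : (pderiv (some i) P).IsWeightedHomogeneous (wt e) (m * e - 1) :=
          hP.pderiv (by rw [wt_some]; omega)
        have h4 := (isWeightedHomogeneous_X R (wt e) (some k)).mul h3
        have h5 : wt e (some k) + (m * e - 1) = m * e := by rw [wt_some]; omega
        rw [h5] at h4
        exact h4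
      · rw [hi]
        have h3 : (pderiv none P).IsWeightedHomogeneous (wt e) ((m - 1) * e) := by
          refine hP.pderiv ?_
          rw [wt_none]
          obtain ⟨m', rfl⟩ : ∃ m', m = m' + 1 := ⟨m - 1, by omega⟩
          rw [Nat.add_sub_cancel]
          ring
        have h4 := aeval_memW e he v _ (m - 1) h3
        have h5 : ∏ k, v (some (φ k)) ∈ Submodule.span R (Set.range (zz e v)) :=
          Submodule.subset_span ⟨.inl φ, rfl⟩
        have h6 := Submodule.mul_mem_mul h5 h4
        rw [← Submodule.span_pow, ← pow_succ', Nat.sub_add_cancel hm, Submodule.span_pow] at h6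
        exact h6
      · rw [hi, ← Algebra.smul_def]
        exact Submodule.smul_mem _ _ (Submodule.subset_span hz)
  have h2 := SetLike.prod_mem_graded (fun i : ℕ => Submodule.span R (Set.range (zz e v)) ^ i) _ _ h1
  rw [Fintype.sum_option] at h2
  simp only [Option.elim, Finset.sum_const, Finset.card_univ, Fintype.card_fin, smul_eq_mul] at h2
  rw [hD]
  exact h2

/-- A power of `π` times a monomial is in the product of the generating sets. -/
theorem pow_memW (π : R) (v : Option ι → F) (P : MvPolynomial (Option ι) R) (m e E r : ℕ)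
    (D : ℕ) (hD : D = E + r * m) (y : F) (hy : y ∈ Set.range (zz e v) ^ D) :
    algebraMap R F π ^ (∑ j : Fin r, (j.val + 1)) * y ∈ ∏ k, PsiW π v P m e E r k := by
  rw [hD, pow_add, mul_comm r, pow_mul] at hy
  obtain ⟨y0, hy0, z, hz, rfl⟩ := hy
  have e1 : (Set.range (zz e v) ^ m) ^ r = ∏ _j : Fin r, Set.range (zz e v) ^ m := by
    rw [Finset.prod_const, Finset.card_univ, Fintype.card_fin]
  rw [e1] at hz
  obtain ⟨g, hg, rfl⟩ := (Set.mem_fintype_prod _ _).1 hz
  refine (Set.mem_fintype_prod _ _).2 ⟨fun k => Option.elim k y0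
    fun j => algebraMap R F (π ^ (j.val + 1)) * g j, ?_, ?_⟩
  · intro k
    cases k with
    | none => exact hy0
    | some j => exact Or.inr ⟨g j, hg j, rfl⟩
  · rw [Fintype.prod_option]
    simp only [Option.elim]
    rw [Finset.prod_mul_distrib, ← Finset.prod_pow_eq_pow_sum]
    simp only [map_pow]
    ring

end aux

theorem t_LMNW : S_COREW → S_LMNW := by
  intro hC O R K F _ _ _ _ _ _ _ _ _ _ _ _ _ 𝔭 _ _ _ _ n m e hm he P hP hP1 hNod c hc hX x hx0
    hrel hgen b htb
  have hinjOR : Function.Injective (algebraMap O R) :=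
    IsLocalization.injective R 𝔭.primeCompl_le_nonZeroDivisors
  have hinj : Function.Injective (algebraMap R K) := IsFractionRing.injective R K
  have hOF : ∀ r : O, algebraMap O F r = algebraMap R F (algebraMap O R r) :=
    fun r => IsScalarTower.algebraMap_apply O R F r
  obtain ⟨π, hπ⟩ := IsDiscreteValuationRing.exists_irreducible R
  have hc0 : algebraMap O R c ≠ 0 := fun h => hc (hinjOR (by rw [h, map_zero]))
  obtain ⟨r, u, hu⟩ := IsDiscreteValuationRing.eq_unit_mul_pow_irreducible hc0 hπ
  obtain ⟨P', hP'⟩ : ∃ P' : MvPolynomial (Option (Fin (n + 1))) R, P' = map (algebraMap O R) P :=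
    ⟨_, rfl⟩
  have hP'd : P'.IsWeightedHomogeneous (wt e) (m * e) := by rw [hP']; exact whom_map _ hP
  have hunit : IsUnit (coeff (Finsupp.single none m) P') := by
    rw [hP', coeff_map, hP1, map_one]
    exact isUnit_one
  have hrel' : aeval x P' = 0 := by rw [hP', aeval_map_algebraMap, hrel]
  have hspan : ∀ i : Fin (n + 1), ∃ k : ℕ,
      (C (π ^ r) * X (some i) ^ k : MvPolynomial (Option (Fin (n + 1))) R) ∈
        (Ideal.span (Set.range fun j => pderiv j P') :
          Ideal (MvPolynomial (Option (Fin (n + 1))) R)) := by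
    intro i
    obtain ⟨k, hk⟩ := hX i
    refine ⟨k, ?_⟩
    have h1 := Ideal.mem_map_of_mem (map (algebraMap O R)) hk
    rw [Ideal.map_span, ← Set.range_comp] at h1
    have h2 : ((map (algebraMap O R)) ∘ fun j => pderiv j P) = fun j => pderiv j P' := by
      funext j
      rw [hP', pderiv_map]
      rfl
    rw [h2] at h1
    have h3 : (C (π ^ r) * X (some i) ^ k : MvPolynomial (Option (Fin (n + 1))) R) =
        C ((u⁻¹ : Rˣ) : R) * map (algebraMap O R) (C c * X (some i) ^ k) := by
      rw [map_mul, map_C, map_pow (map (algebraMap O R)), map_X, ← mul_assoc, ← C_mul, hu,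
        ← mul_assoc, Units.inv_mul, one_mul]
    rw [h3]
    exact Ideal.mul_mem_left _ _ h1
  have hNod' : ∀ (s : Fin (n + 1)) (Q : Ideal (MvPolynomial (Option {j // j ≠ s}) R)),
      Q.IsPrime → dehW s P' ∈ Q → (∀ r : R, C r ∈ Q ↔ ¬ IsUnit r) →
      (∃ j, pderiv j (dehW s P') ∉ Q) ∨ (hess (dehW s P')).det ∉ Q := by
    intro s Q hQ h1 h2
    have e1 : dehW s P' = map (algebraMap O R) (dehW s P) := by rw [hP', map_dehW]
    have h3 := hNod s (Q.comap (map (algebraMap O R))) (Ideal.IsPrime.comap _) (fun o => by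
        rw [Ideal.mem_comap, map_C, h2, IsLocalization.AtPrime.isUnit_to_map_iff R 𝔭 o]
        simp [Ideal.primeCompl]) (by rw [Ideal.mem_comap, ← e1]; exact h1)
    rcases h3 with ⟨j, hj⟩ | h3
    · refine Or.inl ⟨j, fun h => hj ?_⟩
      rw [Ideal.mem_comap, ← pderiv_map, ← e1]
      exact h
    · refine Or.inr fun h => h3 ?_
      rw [Ideal.mem_comap, Pool.Agent.K3h3.ND.hess_map, ← e1]
      exact h
  have hind : ∀ s, x (some s) ≠ 0 → ∃ j₀ : Option {i : Fin (n + 1) // i ≠ s},
      AlgebraicIndependent R (fun i : {i : Option {i : Fin (n + 1) // i ≠ s} // i ≠ j₀} =>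
        x ((i : Option {i : Fin (n + 1) // i ≠ s}).map Subtype.val) /
          x (some s) ^ wt e (i : Option {i : Fin (n + 1) // i ≠ s})) := by
    intro s hs
    obtain ⟨j₀, hj₀⟩ := hindW (K := K) (e := e) x hx0 hgen b htb x
      (fun i j => if i = j then 1 else 0) (by
        intro i
        simp only [apply_ite (algebraMap K F), map_one, map_zero, ite_mul, one_mul, zero_mul,
          Finset.sum_ite_eq, Finset.mem_univ, if_true])
      (IntermediateField.subset_adjoin K _ ⟨none, rfl⟩) s hs
    exact ⟨j₀, hj₀.restrictScalars hinj⟩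
  refine ⟨r * m + 1, fun D hDD => ?_⟩
  obtain ⟨E, hE⟩ : ∃ E, E = D - r * m := ⟨_, rfl⟩
  have hE1 : 1 ≤ E := by omega
  have hD : D = E + r * m := by omega
  have hle : ∀ y ∈ Submodule.span R (∏ k, PsiW π x P' m e E r k),
      y ∈ Submodule.span R (Set.range (zz e x) ^ D) := by
    intro y hy
    have h1 : Submodule.span R (∏ k, PsiW π x P' m e E r k) ≤
        Submodule.span R (Set.range (zz e x) ^ D) := by
      rw [Submodule.span_le]
      exact fun h hh => prod_memW π x P' m e E r hm he hP'd D hD h hh
    exact h1 hy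
  obtain ⟨k, hk⟩ : ∃ k, k = ∑ j : Fin r, (j.val + 1) := ⟨_, rfl⟩
  have hpk : ∀ y ∈ Submodule.span R (Set.range (zz e x) ^ D),
      algebraMap R F π ^ k * y ∈ Submodule.span R (∏ k, PsiW π x P' m e E r k) := by
    intro y hy
    induction hy using Submodule.span_induction with
    | mem y hy => rw [hk]; exact Submodule.subset_span (pow_memW π x P' m e E r D hD y hy)
    | zero => rw [mul_zero]; exact Submodule.zero_mem _
    | add a b _ _ ha hb => rw [mul_add]; exact Submodule.add_mem _ ha hb
    | smul r a _ ha =>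
      rw [mul_smul_comm]
      exact Submodule.smul_mem _ _ ha
  refine ⟨(Submodule.span R (∏ k, PsiW π x P' m e E r k)).restrictScalars O, ?_, ⟨k, ?_⟩, ?_⟩
  · intro y hy
    exact clear_denom (R := R) 𝔭 (Set.range (zz e x) ^ D) y (hle y hy)
  · have hmap : 𝔭.map (algebraMap O R) ≤ Ideal.span {π} := by
      rw [Ideal.map_le_iff_le_comap, ← hπ.maximalIdeal_eq]
      intro c hc
      rw [Ideal.mem_comap]
      exact (IsLocalization.AtPrime.to_map_mem_maximal_iff R 𝔭 c).2 hc
    intro c hc y hy
    have hc1 : ∃ r : R, algebraMap O R c = π ^ k * r := by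
      have h1 : algebraMap O R c ∈ Ideal.span {π ^ k} := by
        rw [← Ideal.span_singleton_pow]
        apply Ideal.pow_right_mono hmap
        rw [← Ideal.map_pow]
        exact Ideal.mem_map_of_mem _ hc
      obtain ⟨r, hr⟩ := Ideal.mem_span_singleton.1 h1
      exact ⟨r, hr⟩
    obtain ⟨r', hr'⟩ := hc1
    show c • y ∈ Submodule.span R (∏ k, PsiW π x P' m e E r k)
    have hy' : y ∈ Submodule.span R (Set.range (zz e x) ^ D) :=
      Submodule.span_subset_span O R _ hy
    have h2 : c • y = r' • (algebraMap R F π ^ k * y) := by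
      rw [Algebra.smul_def, Algebra.smul_def, hOF, hr', map_mul, map_pow]
      ring
    rw [h2]
    exact Submodule.smul_mem _ _ (hpk y hy')
  · intro M hMP hM2 f hfM hf q hqp hq
    obtain ⟨𝒪, hloc, hR, hRU, hloc2, hG, hreg⟩ := transfer (R := R) 𝔭 M
      (∏ k, PsiW π x P' m e E r k) (fun y hy => hMP hy) (fun y hy => hM2 y hy) f q hq
    apply hreg
    exact hC R F n 𝒪 hloc hR hRU π hπ m e hm he P' hP'd hunit hNod' r hspan x hrel' hind E hE1 f
      hf (hMP hfM) hG hloc2

end Pool.Agent.K3h13.NW
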